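import Pool.Agent.helper58.FI.SpecC

/-!
# Project fi (MP_baa4d7_al), row TRX: the trace formula
-/

set_option autoImplicit false

namespace Pool.Agent.FI

open Pool.Agent.helper58.DC Pool.Agent.DI Pool.Agent.GR Pool.Agent.OB Pool.Agent.DR

/-- the idempotent of all characters is the unit element -/
theorem TRX_dl (hCCI : CCI_stmt) (hIDM : IDM_stmt) (hEXP : EXP_stmt) (G : Type) [Group G] [Finite G] (H : Subgroup G) :
    eS H (IrrOn H) = GR.dl := by
  obtain ⟨h1, h2, -, -⟩ := hIDM G H (IrrOn H) subset_rfl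
  have h3 : CF H (eS H (IrrOn H) - GR.dl) := by
    constructor
    · intro h hh x
      have e1 := h1.1 h hh x
      have e2 : (GR.dl : G → ℂ) (h * x * h⁻¹) = GR.dl x := by
        unfold GR.dl
        by_cases hx : x = 1
        · rw [if_pos hx, if_pos (by rw [hx]; group)]
        · rw [if_neg hx, if_neg]
          intro h4
          apply hx
          have : x = h⁻¹ * (h * x * h⁻¹) * h := by group
          rw [this, h4]
          group
      change eS H (IrrOn H) _ - GR.dl _ = eS H (IrrOn H) _ - GR.dl _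
      rw [e1, e2]
    · intro x hx
      change eS H (IrrOn H) x - GR.dl x = 0
      rw [h1.2 x hx]
      unfold GR.dl
      have h0 : x ≠ 1 := fun h => hx (by rw [h]; exact H.one_mem)
      rw [if_neg h0, sub_zero]
  have h4 := hEXP G H _ h3 (fun ψ hψ => by
    rw [((hCCI G H ψ hψ).1 0 _ _).2.1, ((hCCI G H ψ hψ).1 0 0 0).2.2.2, h2 ψ hψ, if_pos hψ, sub_self])
  exact sub_eq_zero.1 h4

/-- column orthogonality -/
theorem TRX_col (hCCI : CCI_stmt) (hIDM : IDM_stmt) (hEXP : EXP_stmt) (G : Type) [Group G] [Finite G] (H : Subgroup G)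
    (a b : G) (ha : a ∈ H) (hb : b ∈ H) : ∑ᶠ z ∈ (H : Set G), GR.dl (z⁻¹ * a⁻¹ * z * b) = Sf (IrrOn H) a b := by
  rw [← TRX_dl hCCI hIDM hEXP G H]
  exact (hIDM G H (IrrOn H) subset_rfl).2.2.2 a ha b hb

theorem TRX (hB2 : B2_stmt) (hCCI : CCI_stmt) (hIDM : IDM_stmt) (hEXP : EXP_stmt) : TRX_stmt := by
  intro G _ _ H i j hi hj a ha b hb
  classical
  have := Fintype.ofFinite G
  obtain ⟨hfin, hB⟩ := hB2 G H
  have hHf : (H : Set G).Finite := Set.toFinite _
  rw [finsum_mem_eq_finite_toFinset_sum _ hHf, finsum_mem_eq_finite_toFinset_sum _ hfin]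
  have e1 : ∀ z ∈ hHf.toFinset, ∑ᶠ x, i x * j (b * z⁻¹ * a⁻¹ * x⁻¹ * z) =
      ∑ x, ∑ w, i x * j w * GR.dl (z⁻¹ * (x * a)⁻¹ * z * (w⁻¹ * b)) := by
    intro z _
    rw [finsum_eq_sum_of_fintype]
    refine Finset.sum_congr rfl fun x _ => ?_
    rw [Finset.sum_eq_single (b * z⁻¹ * a⁻¹ * x⁻¹ * z)]
    · have : z⁻¹ * (x * a)⁻¹ * z * ((b * z⁻¹ * a⁻¹ * x⁻¹ * z)⁻¹ * b) = 1 := by group
      rw [this]
      simp [GR.dl]
    · intro w _ hw
      have : z⁻¹ * (x * a)⁻¹ * z * (w⁻¹ * b) ≠ 1 := by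
        intro h
        apply hw
        have h2 : w = b * (z⁻¹ * (x * a)⁻¹ * z * (w⁻¹ * b))⁻¹ * (z⁻¹ * (x * a)⁻¹ * z) := by group
        rw [h2, h]
        group
      have h0 : (GR.dl (z⁻¹ * (x * a)⁻¹ * z * (w⁻¹ * b)) : ℂ) = 0 := if_neg this
      rw [h0, mul_zero]
    · intro h
      exact absurd (Finset.mem_univ _) h
  rw [Finset.sum_congr rfl e1, Finset.sum_comm]
  have e2 : ∀ x w : G, ∑ z ∈ hHf.toFinset, i x * j w * GR.dl (z⁻¹ * (x * a)⁻¹ * z * (w⁻¹ * b)) =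
      ∑ χ' ∈ hfin.toFinset, (i x * χ' (a * x)) * (j w * χ' (b⁻¹ * w)) := by
    intro x w
    by_cases hx : x ∈ H
    · by_cases hw : w ∈ H
      · rw [← Finset.mul_sum, ← finsum_mem_eq_finite_toFinset_sum _ hHf,
          TRX_col hCCI hIDM hEXP G H (x * a) (w⁻¹ * b) (H.mul_mem hx ha) (H.mul_mem (H.inv_mem hw) hb), Sf,
          finsum_mem_eq_finite_toFinset_sum _ hfin, Finset.mul_sum]
        refine Finset.sum_congr rfl fun χ' hχ => ?_
        have h1 := (hB χ' (hfin.mem_toFinset.1 hχ)).2.1 (x * a) a ha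
        have h2 : a * (x * a) * a⁻¹ = a * x := by group
        rw [h2] at h1
        have h3 : (w⁻¹ * b)⁻¹ = b⁻¹ * w := by group
        rw [← h1, h3]
        ring
      · simp [hj w hw]
    · simp [hi x hx]
  have e3 : ∀ x : G, ∑ z ∈ hHf.toFinset, ∑ w, i x * j w * GR.dl (z⁻¹ * (x * a)⁻¹ * z * (w⁻¹ * b)) =
      ∑ χ' ∈ hfin.toFinset, ∑ w, (i x * χ' (a * x)) * (j w * χ' (b⁻¹ * w)) := by
    intro x
    rw [Finset.sum_comm, Finset.sum_congr rfl fun w _ => e2 x w, Finset.sum_comm]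
  rw [Finset.sum_congr rfl fun x _ => e3 x, Finset.sum_comm]
  refine Finset.sum_congr rfl fun χ' _ => ?_
  rw [ev, ev, finsum_eq_sum_of_fintype, finsum_eq_sum_of_fintype, Finset.sum_mul_sum]

end Pool.Agent.FI
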